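import Pool.Agent.H10R3.SC.Stmts3
import Pool.Agent.H444.FA.Path

set_option autoImplicit false
set_option linter.unusedSectionVars false

open Finset

namespace Pool.Agent.H397R3.CX

open Pool.Agent.Helper347.Sab
open Pool.Agent.H444.FA
open Pool.Agent.H10R3.SC

variable {V E : Type} [Fintype V] [DecidableEq V] [Fintype E] [DecidableEq E]

theorem dgu (G : MGraph V E) {A B : Finset E} (h : Disjoint A B) (v : V) :
    dg G (A ∪ B) v = dg G A v + dg G B v := by
  unfold dg
  rw [filter_union, card_union_of_disjoint]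
  exact disjoint_filter_filter h

theorem dg1 (G : MGraph V E) (e : E) (v : V) :
    dg G {e} v = if v ∈ G.ends e then 1 else 0 := by
  unfold dg
  rw [filter_singleton]
  split_ifs <;> simp

theorem cr_compl {G : MGraph V E} {X : Finset V} {d : ℕ} {y x : Fin d → V} {ℓ : Fin d → E}
    (h : Cr G X y x ℓ) : Cr G Xᶜ x y ℓ where
  ends j := by rw [h.ends j, Sym2.eq_swap]
  yin j := mem_compl.mpr (h.xout j)
  xout j := by rw [mem_compl, not_not]; exact h.yin j
  yinj := h.xinj
  xinj := h.yinj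
  cut e := by
    rw [← h.cut e]
    unfold Pool.Agent.H10R3.SC.cut
    simp only [mem_filter, mem_univ, true_and, mem_compl, not_not]
    tauto

theorem mem_end {G : MGraph V E} {X : Finset V} {d : ℕ} {y x : Fin d → V} {ℓ : Fin d → E}
    (h : Cr G X y x ℓ) (j : Fin d) (v : V) : v ∈ G.ends (ℓ j) ↔ v = y j ∨ v = x j := by
  rw [h.ends j, Sym2.mem_iff]

theorem ell_inj {G : MGraph V E} {X : Finset V} {d : ℕ} {y x : Fin d → V} {ℓ : Fin d → E}
    (h : Cr G X y x ℓ) : Function.Injective ℓ := by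
  intro i j hij
  have h1 : y i ∈ G.ends (ℓ j) := by rw [← hij, mem_end h]; exact Or.inl rfl
  rw [mem_end h] at h1
  rcases h1 with h1 | h1
  · exact h.yinj h1
  · exact absurd (h1 ▸ h.yin i) (h.xout j)

theorem ell_not_ins {G : MGraph V E} {X : Finset V} {d : ℕ} {y x : Fin d → V} {ℓ : Fin d → E}
    (h : Cr G X y x ℓ) (j : Fin d) : ℓ j ∉ ins G univ X := by
  unfold ins
  rw [mem_filter]
  intro hh
  exact h.xout j (hh.2 (x j) ((mem_end h j _).mpr (Or.inr rfl)))

theorem half {G : MGraph V E} {C : Finset E} (hC : IsCircuit G C) {X : Finset V}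
    {y x : Fin 4 → V} {ℓ : Fin 4 → E} (h : Cr G X y x ℓ) (hl : ∀ j, ℓ j ∈ C) :
    ∃ m : Fin 4, m ≠ 0 ∧ ∃ P, P ⊆ C ∩ ins G univ X ∧
      ∀ v, Odd (dg G P v) ↔ (v = y 0 ∨ v = y m) := by
  have hsplit : C = (C ∩ ins G univ X) ∪ ((C ∩ ins G univ Xᶜ) ∪ univ.image ℓ) := by
    ext e
    simp only [mem_union, mem_inter, mem_image, mem_univ, true_and]
    constructor
    · intro he
      by_cases h1 : e ∈ ins G univ X
      · exact Or.inl ⟨he, h1⟩
      by_cases h2 : e ∈ ins G univ Xᶜ
      · exact Or.inr (Or.inl ⟨he, h2⟩)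
      right; right
      have hcut : e ∈ Pool.Agent.H10R3.SC.cut G univ X := by
        unfold ins at h1 h2
        unfold Pool.Agent.H10R3.SC.cut
        simp only [mem_filter, mem_univ, true_and, not_forall, mem_compl, not_not] at h1 h2 ⊢
        obtain ⟨u, hu, hu2⟩ := h1
        obtain ⟨w, hw, hw2⟩ := h2
        exact ⟨⟨w, hw, hw2⟩, ⟨u, hu, hu2⟩⟩
      obtain ⟨j, hj⟩ := (h.cut e).mp hcut
      exact ⟨j, hj.symm⟩
    · rintro (h1 | h1 | ⟨j, rfl⟩)
      · exact h1.1
      · exact h1.1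
      · exact hl j
  have hd2 : Disjoint (C ∩ ins G univ Xᶜ) (univ.image ℓ) := by
    rw [disjoint_left]
    intro e he he2
    rw [mem_image] at he2
    obtain ⟨j, _, rfl⟩ := he2
    exact ell_not_ins (cr_compl h) j (mem_inter.mp he).2
  have hd1 : Disjoint (C ∩ ins G univ X) ((C ∩ ins G univ Xᶜ) ∪ univ.image ℓ) := by
    rw [disjoint_left]
    intro e he he2
    rw [mem_union] at he2
    rcases he2 with he2 | he2
    · have h1 := (mem_inter.mp he).2
      have h2 := (mem_inter.mp he2).2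
      unfold ins at h1 h2
      rw [mem_filter] at h1 h2
      obtain ⟨u, hu⟩ : ∃ u, u ∈ G.ends e := by
        induction G.ends e using Sym2.ind with
        | _ a b => exact ⟨a, Sym2.mem_mk_left a b⟩
      exact (mem_compl.mp (h2.2 u hu)) (h1.2 u hu)
    · rw [mem_image] at he2
      obtain ⟨j, _, rfl⟩ := he2
      exact ell_not_ins h j (mem_inter.mp he).2
  have hcount : ∀ v ∈ X, dg G C v = dg G (C ∩ ins G univ X) v + dg G (univ.image ℓ) v := by
    intro v hv
    have h0 : dg G (C ∩ ins G univ Xᶜ) v = 0 := by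
      unfold dg
      rw [card_eq_zero, filter_eq_empty_iff]
      intro e he hve
      have h2 := (mem_inter.mp he).2
      unfold ins at h2
      rw [mem_filter] at h2
      exact (mem_compl.mp (h2.2 v hve)) hv
    conv_lhs => rw [hsplit]
    rw [dgu G hd1, dgu G hd2, h0, zero_add]
  have hout : ∀ v, v ∉ X → dg G (C ∩ ins G univ X) v = 0 := by
    intro v hv
    unfold dg
    rw [card_eq_zero, filter_eq_empty_iff]
    intro e he hve
    have h2 := (mem_inter.mp he).2
    unfold ins at h2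
    rw [mem_filter] at h2
    exact hv (h2.2 v hve)
  have himg1 : ∀ j, dg G (univ.image ℓ) (y j) = 1 := by
    intro j
    unfold dg
    rw [card_eq_one]
    refine ⟨ℓ j, ?_⟩
    ext e
    rw [mem_filter, mem_image, mem_singleton]
    constructor
    · rintro ⟨⟨i, _, rfl⟩, h2⟩
      rw [mem_end h] at h2
      rcases h2 with h2 | h2
      · rw [h.yinj h2]
      · exact absurd (h2 ▸ h.yin j) (h.xout i)
    · rintro rfl
      exact ⟨⟨j, mem_univ _, rfl⟩, (mem_end h j _).mpr (Or.inl rfl)⟩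
  have himg0 : ∀ v ∈ X, (∀ j, v ≠ y j) → dg G (univ.image ℓ) v = 0 := by
    intro v hv hj
    unfold dg
    rw [card_eq_zero, filter_eq_empty_iff]
    intro e he hve
    rw [mem_image] at he
    obtain ⟨i, _, rfl⟩ := he
    rw [mem_end h] at hve
    rcases hve with h2 | h2
    · exact hj i h2
    · exact h.xout i (h2 ▸ hv)
  have hev : ∀ v, Even (dg G C v) := by
    intro v
    rcases hC.2.1 v with h1 | h1 <;> rw [h1] <;> decide
  have hodd0 : Odd (dg G (C ∩ ins G univ X) (y 0)) := by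
    have h1 := hcount (y 0) (h.yin 0)
    have h2 := hev (y 0)
    rw [h1, himg1] at h2
    rw [← Nat.not_even_iff_odd]
    intro h3
    exact (Nat.not_even_iff_odd.mpr h3.add_one) h2
  obtain ⟨b, hb, hbo, P, hP, hPo⟩ := path V E G _ (y 0) hodd0
  have hbX : b ∈ X := by
    by_contra hc
    rw [hout b hc] at hbo
    exact (by decide : ¬ Odd 0) hbo
  obtain ⟨m, hm⟩ : ∃ m, b = y m := by
    by_contra hc
    push Not at hc
    have h1 := hcount b hbX
    rw [himg0 b hbX hc, add_zero] at h1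
    rw [← h1] at hbo
    exact (Nat.not_even_iff_odd.mpr hbo) (hev b)
  refine ⟨m, ?_, P, hP, ?_⟩
  · rintro rfl
    exact hb hm
  · rw [← hm]; exact hPo

theorem pair (h : TMinCirc) : TPair := by
  intro V E _ _ _ _ G C hC X y x ℓ hcr hl
  obtain ⟨m, hm, P, hP, hPo⟩ := half hC hcr hl
  obtain ⟨m', hm', P', hP', hPo'⟩ := half hC (cr_compl hcr) hl
  refine ⟨m, m', hm, hm', ?_, ⟨P, hP, hPo⟩, ⟨P', hP', hPo'⟩⟩
  rintro rfl
  have hll : ℓ 0 ≠ ℓ m := fun he => hm (ell_inj hcr he).symm
  have hd3 : Disjoint ({ℓ 0} : Finset E) {ℓ m} := by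
    rw [disjoint_singleton]; exact hll
  have hd2 : Disjoint P' ({ℓ 0} ∪ {ℓ m}) := by
    rw [disjoint_left]
    intro e he he2
    have h1 := (mem_inter.mp (hP' he)).2
    rw [mem_union, mem_singleton, mem_singleton] at he2
    rcases he2 with rfl | rfl
    · exact ell_not_ins (cr_compl hcr) _ h1
    · exact ell_not_ins (cr_compl hcr) _ h1
  have hd1 : Disjoint P (P' ∪ ({ℓ 0} ∪ {ℓ m})) := by
    rw [disjoint_left]
    intro e he he2
    have h1 := (mem_inter.mp (hP he)).2
    rw [mem_union, mem_union, mem_singleton, mem_singleton] at he2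
    rcases he2 with he2 | rfl | rfl
    · have h2 := (mem_inter.mp (hP' he2)).2
      unfold ins at h1 h2
      rw [mem_filter] at h1 h2
      obtain ⟨u, hu⟩ : ∃ u, u ∈ G.ends e := by
        induction G.ends e using Sym2.ind with
        | _ a b => exact ⟨a, Sym2.mem_mk_left a b⟩
      exact (mem_compl.mp (h2.2 u hu)) (h1.2 u hu)
    · exact ell_not_ins hcr _ h1
    · exact ell_not_ins hcr _ h1
  have hZev : Ev G (P ∪ (P' ∪ ({ℓ 0} ∪ {ℓ m}))) := by
    intro v
    rw [dgu G hd1, dgu G hd2, dgu G hd3, dg1, dg1]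
    have hy0 : y 0 ≠ y m := fun he => hm (hcr.yinj he).symm
    have hx0 : x 0 ≠ x m := fun he => hm (hcr.xinj he).symm
    have hyx : ∀ i j, y i ≠ x j := fun i j he => hcr.xout j (he ▸ hcr.yin i)
    have e1 := hPo v
    have e2 := hPo' v
    have e3 := mem_end hcr 0 v
    have e4 := mem_end hcr m v
    simp only [e3, e4]
    by_cases c1 : v = y 0
    · have n1 : ¬ v = x 0 := by rw [c1]; exact hyx _ _
      have n2 : ¬ v = x m := by rw [c1]; exact hyx _ _
      have n3 : ¬ v = y m := by rw [c1]; exact hy0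
      have o1 : Odd (dg G P v) := e1.mpr (Or.inl c1)
      have o2 : Even (dg G P' v) := by
        rw [← Nat.not_odd_iff_even, e2]; exact not_or.mpr ⟨n1, n2⟩
      rw [if_pos (Or.inl c1), if_neg (not_or.mpr ⟨n3, n2⟩)]
      have h9 := o1.add_odd (o2.add_one)
      rw [add_zero]; exact h9
    by_cases c2 : v = y m
    · have n1 : ¬ v = x 0 := by rw [c2]; exact hyx _ _
      have n2 : ¬ v = x m := by rw [c2]; exact hyx _ _
      have o1 : Odd (dg G P v) := e1.mpr (Or.inr c2)
      have o2 : Even (dg G P' v) := by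
        rw [← Nat.not_odd_iff_even, e2]; exact not_or.mpr ⟨n1, n2⟩
      rw [if_neg (not_or.mpr ⟨c1, n1⟩), if_pos (Or.inl c2)]
      have h9 := o1.add_odd (o2.add_one)
      rw [zero_add]; exact h9
    have o1 : Even (dg G P v) := by
      rw [← Nat.not_odd_iff_even, e1]; exact not_or.mpr ⟨c1, c2⟩
    by_cases c3 : v = x 0
    · have n2 : ¬ v = x m := by rw [c3]; exact hx0
      have o2 : Odd (dg G P' v) := e2.mpr (Or.inl c3)
      rw [if_pos (Or.inr c3), if_neg (not_or.mpr ⟨c2, n2⟩)]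
      have h9 := o1.add (o2.add_one)
      rw [add_zero]; exact h9
    by_cases c4 : v = x m
    · have o2 : Odd (dg G P' v) := e2.mpr (Or.inr c4)
      rw [if_neg (not_or.mpr ⟨c1, c3⟩), if_pos (Or.inr c4)]
      have h9 := o1.add (o2.add_one)
      rw [zero_add]; exact h9
    have o2 : Even (dg G P' v) := by
      rw [← Nat.not_odd_iff_even, e2]; exact not_or.mpr ⟨c3, c4⟩
    rw [if_neg (not_or.mpr ⟨c1, c3⟩), if_neg (not_or.mpr ⟨c2, c4⟩)]
    exact o1.add o2
  have hZC : P ∪ (P' ∪ ({ℓ 0} ∪ {ℓ m})) ⊆ C := by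
    intro e he
    rw [mem_union, mem_union, mem_union, mem_singleton, mem_singleton] at he
    rcases he with he | he | rfl | rfl
    · exact (mem_inter.mp (hP he)).1
    · exact (mem_inter.mp (hP' he)).1
    · exact hl _
    · exact hl _
  have hZ := (h V E G C).1 hC _ hZC ⟨ℓ 0, by simp⟩ hZev
  obtain ⟨j, hj0, hjm⟩ : ∃ j : Fin 4, j ≠ 0 ∧ j ≠ m := by
    revert hm; clear * -
    revert m; decide
  have hj := hl j
  rw [← hZ, mem_union, mem_union, mem_union, mem_singleton, mem_singleton] at hj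
  rcases hj with hj | hj | hj | hj
  · exact ell_not_ins hcr _ (mem_inter.mp (hP hj)).2
  · exact ell_not_ins (cr_compl hcr) _ (mem_inter.mp (hP' hj)).2
  · exact hj0 (ell_inj hcr hj)
  · exact hjm (ell_inj hcr hj)

end Pool.Agent.H397R3.CX
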